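import Mathlib
import Pool.Agent.H358R5.MainC

/-! If some window of length `k` contains at least `exp (4 m + 0.58)` integers without a prime factor `≤ k`, then
infinitely many windows of length `k` contain at least `m + 1` primes. -/

open Finset in
theorem Pool.Agent.Results.MP_cbf366_nt.PrimesInWindows.aux (x k : ℕ) :
    Nat.primeCounting (x + k) = Nat.primeCounting x + ((Ioc x (x + k)).filter Nat.Prime).card := by
  have h1 : ∀ n : ℕ, Nat.primeCounting n = ((range (n + 1)).filter Nat.Prime).card := by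
    intro n
    rw [Nat.primeCounting, Nat.primeCounting', Nat.count_eq_card_filter_range]
  rw [h1, h1, ← Finset.card_union_of_disjoint]
  · congr 1
    ext p
    simp only [mem_union, mem_filter, mem_range, mem_Ioc]
    constructor
    · rintro ⟨h, hp⟩
      by_cases hx : p < x + 1
      · exact Or.inl ⟨hx, hp⟩
      · exact Or.inr ⟨⟨by omega, by omega⟩, hp⟩
    · rintro (⟨h, hp⟩ | ⟨⟨h, h'⟩, hp⟩)
      · exact ⟨by omega, hp⟩
      · exact ⟨by omega, hp⟩
  · rw [Finset.disjoint_left]
    intro p hp hp'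
    simp only [mem_filter, mem_range, mem_Ioc] at hp hp'
    omega

theorem Pool.Agent.Results.MP_cbf366_nt.PrimesInWindows.result :
    ∀ m k u : ℕ, 2 ≤ m →
      4 * (m : ℝ) + 29 / 50 ≤
        Real.log (Set.ncard {n : ℕ | u < n ∧ n ≤ u + k ∧ ∀ p : ℕ, p.Prime → p ≤ k → ¬ p ∣ n} : ℕ) →
      ∃ᶠ x : ℕ in Filter.atTop, Nat.primeCounting x + (m + 1) ≤ Nat.primeCounting (x + k) := by
  intro m k u hm hK
  refine (Pool.Agent.H358R5.rho_many m k u hm hK).mono fun x hx => ?_
  rw [Pool.Agent.Results.MP_cbf366_nt.PrimesInWindows.aux]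
  omega
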