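import Mathlib
import Pool.Agent.H381R2.HR.Main

/-!
# The right-hand side of the Hardy–Littlewood conjecture `ρ(k) = max_m h_m(k)`

`h_m(k)` is the number of integers in `(m, m + k]` without a prime factor `≤ k`.  For every
`α < 1/2` and all large `k`, `max_m h_m(k) ≥ π(k) + α k log log log k / (log k)^2`; hence Q1 for a
single large `k` forces infinitely many windows `(x, x + k]` with that many primes.
-/

set_option autoImplicit false

open Finset Filter

namespace Pool.Agent.Results.MP_cbf366_nt.SieveMaximum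

/-- The number of integers in `(m, m + k]` that no prime `p ≤ k` divides. -/
noncomputable def h (m k : ℕ) : ℕ :=
  Set.ncard {n : ℕ | m < n ∧ n ≤ m + k ∧ ∀ p : ℕ, p.Prime → p ≤ k → ¬ p ∣ n}

lemma coprime_iff (n k : ℕ) :
    Nat.Coprime n (primorial k) ↔ ∀ p : ℕ, p.Prime → p ≤ k → ¬ p ∣ n := by
  unfold primorial
  rw [Nat.coprime_prod_right_iff]
  constructor
  · intro h p hp hpk hd
    have := h p (by simp [hp]; omega)
    exact (Nat.Prime.coprime_iff_not_dvd hp).mp this.symm hd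
  · intro h p hp
    simp only [mem_filter, mem_range] at hp
    exact ((Nat.Prime.coprime_iff_not_dvd hp.2).mpr (h p hp.2 (by omega))).symm

lemma h_eq (m k : ℕ) :
    h m k = ((Ioc m (m + k)).filter (fun x => Nat.Coprime x (primorial k))).card := by
  unfold h
  rw [← Set.ncard_coe_finset]
  congr 1
  ext n
  simp only [coe_filter, mem_Ioc, Set.mem_ofPred_eq, coprime_iff, and_assoc]

/-- From an admissible set to a window of length `k`. -/
lemma window (k : ℕ) (S : Finset ℤ) (hS : ∀ s ∈ S, 0 ≤ s ∧ s < k)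
    (hadm : ∀ q : ℕ, q.Prime → ∃ r : ℤ, ∀ s ∈ S, ¬ ((q : ℤ) ∣ s - r)) :
    ∃ m : ℕ, S.card ≤ h m k := by
  classical
  choose! r hr using hadm
  let P : Finset ℕ := (range (k + 1)).filter Nat.Prime
  -- CRT
  have hcop : Set.Pairwise (P : Set ℕ) (Function.onFun Nat.Coprime (fun p => p)) := by
    intro p hp q hq hpq
    simp only [P, coe_filter, Set.mem_ofPred_eq] at hp hq
    exact (Nat.coprime_primes hp.2 hq.2).mpr hpq
  have hcop' : (P.toList).Pairwise (Function.onFun Nat.Coprime (fun p => p)) := by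
    have hnd := P.nodup_toList
    rw [List.pairwise_iff_getElem]
    intro i j hi hj hij
    apply hcop (mem_toList.mp (List.getElem_mem hi)) (mem_toList.mp (List.getElem_mem hj))
    intro hcon
    have := (List.Nodup.getElem_inj_iff hnd).mp hcon
    omega
  let m0 := Nat.chineseRemainderOfList (fun p => ((-1 - r p) % (p : ℤ)).toNat) (fun p => p)
    P.toList hcop'
  refine ⟨m0, ?_⟩
  have hm0 : ∀ p ∈ P, (p : ℤ) ∣ ((m0 : ℕ) : ℤ) + 1 + r p := by
    intro p hp
    have h1 := m0.2 p (by simpa using hp)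
    have hpp : p.Prime := (mem_filter.mp hp).2
    have hp0 : (0 : ℤ) < p := by exact_mod_cast hpp.pos
    have h2 : (((m0 : ℕ) : ℤ)) ≡ (((-1 - r p) % (p : ℤ)).toNat : ℤ) [ZMOD p] :=
      (Int.natCast_modEq_iff).mpr h1
    rw [Int.toNat_of_nonneg (Int.emod_nonneg _ hp0.ne')] at h2
    have h3 : (((m0 : ℕ) : ℤ)) ≡ (-1 - r p) [ZMOD p] := h2.trans (Int.mod_modEq _ _)
    have h4 := h3.symm.dvd
    have h5 : ((m0 : ℕ) : ℤ) - (-1 - r p) = ((m0 : ℕ) : ℤ) + 1 + r p := by ring
    rwa [h5] at h4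
  rw [h_eq]
  apply card_le_card_of_injOn (fun s : ℤ => (m0 : ℕ) + 1 + s.toNat)
  · intro s hs
    have hs' := hS s hs
    simp only [coe_filter, mem_Ioc, Set.mem_ofPred_eq, coprime_iff]
    refine ⟨⟨by omega, by omega⟩, ?_⟩
    intro p hp hpk hd
    have hpP : p ∈ P := by simp [P, hp]; omega
    have h1 := hm0 p hpP
    have h2 : (p : ℤ) ∣ ((m0 : ℕ) : ℤ) + 1 + s := by
      have : (((m0 : ℕ) + 1 + s.toNat : ℕ) : ℤ) = ((m0 : ℕ) : ℤ) + 1 + s := by
        push_cast
        rw [Int.toNat_of_nonneg hs'.1]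
      rw [← this]
      exact_mod_cast hd
    apply hr p hp s hs
    have := dvd_sub h2 h1
    have h6 : ((m0 : ℕ) : ℤ) + 1 + s - (((m0 : ℕ) : ℤ) + 1 + r p) = s - r p := by ring
    rwa [h6] at this
  · intro s hs t ht hst
    have hs' := hS s hs
    have ht' := hS t ht
    simp only at hst
    omega

theorem result (α : ℝ) (hα : α < 1 / 2) : ∃ k0 : ℕ, ∀ k : ℕ, k0 ≤ k →
    (∃ m : ℕ, (Nat.primeCounting k : ℝ) +
      α * (k * Real.log (Real.log (Real.log k)) / (Real.log k) ^ 2) ≤ h m k) ∧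
    (∀ H : ℕ, (∃ m : ℕ, h m k = H) → (∀ m : ℕ, h m k ≤ H) →
      (∃ᶠ x in atTop, Nat.primeCounting (x + k) - Nat.primeCounting x = H) →
      (∀ᶠ x in atTop, Nat.primeCounting (x + k) - Nat.primeCounting x ≤ H) →
      ∃ᶠ x : ℕ in atTop, (Nat.primeCounting x : ℝ) + Nat.primeCounting k +
        α * (k * Real.log (Real.log (Real.log k)) / (Real.log k) ^ 2) ≤
          Nat.primeCounting (x + k)) := by
  obtain ⟨x0, hx0⟩ := Pool.Agent.H381R2.HR.final hα
  refine ⟨⌈x0⌉₊, ?_⟩
  intro k hk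
  have hk' : x0 ≤ (k : ℝ) := (Nat.le_ceil x0).trans (by exact_mod_cast hk)
  obtain ⟨S, hS0, hS, hadm, hcard⟩ := hx0 k hk'
  rw [Nat.floor_natCast] at hcard
  obtain ⟨m, hm⟩ := window k S (fun s hs => ⟨(hS s hs).1, by exact_mod_cast (hS s hs).2⟩) hadm
  have h1 : (Nat.primeCounting k : ℝ) +
      α * (k * Real.log (Real.log (Real.log k)) / (Real.log k) ^ 2) ≤ h m k :=
    hcard.trans (by exact_mod_cast hm)
  refine ⟨⟨m, h1⟩, ?_⟩
  intro H _ hmax hfreq _
  apply hfreq.mono
  intro x hx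
  have h2 : Nat.primeCounting (x + k) = Nat.primeCounting x + H := by
    have := Nat.monotone_primeCounting (Nat.le_add_right x k)
    omega
  rw [h2]
  push_cast
  have h3 : (h m k : ℝ) ≤ H := by exact_mod_cast hmax m
  linarith

end Pool.Agent.Results.MP_cbf366_nt.SieveMaximum
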